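import Pool.Agent.Y163.MQ.Newt

/-!
# The comparison of the cohomologies; the consequences of maximality
-/

set_option autoImplicit false

open Module

namespace Pool.Agent.Y163.MQ

universe u v v' w w'

open Pool.Agent.Y143 Pool.Agent.Y163.MW Pool.Agent.Y163.MX

section

variable {Ω : Type w} [Field Ω] [CharZero Ω] {R : Coh.{v, w} Ω}
  {Ω' : Type w'} [Field Ω'] [CharZero Ω'] {R' : Coh.{v', w'} Ω'} {q : ℕ}

omit [CharZero Ω] [CharZero Ω'] in
/-- Division of polynomials with rational coefficients. -/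
lemma div_common [CharZero Ω] [CharZero Ω'] {f : Polynomial Ω} {f' : Polynomial Ω'}
    {U V : Polynomial ℚ} (hU : U ≠ 0)
    (h : f * U.map (algebraMap ℚ Ω) = V.map (algebraMap ℚ Ω))
    (h' : f' * U.map (algebraMap ℚ Ω') = V.map (algebraMap ℚ Ω')) :
    ∃ P : Polynomial ℚ, f = P.map (algebraMap ℚ Ω) ∧ f' = P.map (algebraMap ℚ Ω') := by
  have h1 : U.map (algebraMap ℚ Ω) ∣ V.map (algebraMap ℚ Ω) := ⟨f, by rw [← h, mul_comm]⟩
  rw [Polynomial.map_dvd_map'] at h1
  obtain ⟨S, rfl⟩ := h1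
  have hU1 : U.map (algebraMap ℚ Ω) ≠ 0 :=
    (Polynomial.map_ne_zero_iff (algebraMap ℚ Ω).injective).2 hU
  have hU2 : U.map (algebraMap ℚ Ω') ≠ 0 :=
    (Polynomial.map_ne_zero_iff (algebraMap ℚ Ω').injective).2 hU
  refine ⟨S, ?_, ?_⟩
  · rw [Polynomial.map_mul, mul_comm] at h
    exact mul_left_cancel₀ hU1 h
  · rw [Polynomial.map_mul, mul_comm] at h'
    exact mul_left_cancel₀ hU2 h'

/-- If the characteristic polynomials in the other degrees are rational and equal, so are the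
remaining ones. -/
theorem matched_of_others (hR : R.IsCoh q) (hR' : R'.IsCoh q) {k m : ℕ} (hm : m ≤ k)
    (h : SameAlternating R R' k) (hj : ∀ j, j ≤ k → j ≠ m → Matched R R' j) : Matched R R' m := by
  classical
  obtain ⟨P, Q, hP0, hQ0, h1, h2⟩ := h
  choose! F hF1 hF2 using hj
  have hF0 : ∀ j, j ≤ k → j ≠ m → F j ≠ 0 := by
    intro j hjk hjm h0
    have := charP_ne_zero hR j
    rw [hF1 j hjk hjm, h0, Polynomial.map_zero] at this
    exact this rfl
  unfold AltEq at h1 h2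
  by_cases hev : Even m
  · have hmem : m ∈ (Finset.range (k + 1)).filter Even :=
      Finset.mem_filter.2 ⟨Finset.mem_range.2 (by omega), hev⟩
    have hs : ∀ j ∈ ((Finset.range (k + 1)).filter Even).erase m, j ≤ k ∧ j ≠ m := by
      intro j hj'
      have h3 := Finset.mem_erase.1 hj'
      have h4 := Finset.mem_filter.1 h3.2
      have h5 := Finset.mem_range.1 h4.1
      exact ⟨by omega, h3.1⟩
    have ht : ∀ j ∈ (Finset.range (k + 1)).filter (fun j => ¬ Even j), j ≤ k ∧ j ≠ m := by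
      intro j hj'
      have h4 := Finset.mem_filter.1 hj'
      have h5 := Finset.mem_range.1 h4.1
      refine ⟨by omega, ?_⟩
      rintro rfl
      exact h4.2 hev
    rw [← Finset.mul_prod_erase _ _ hmem] at h1 h2
    rw [Finset.prod_congr rfl (fun j hj' => hF1 j (hs j hj').1 (hs j hj').2),
      Finset.prod_congr rfl (fun j hj' => hF1 j (ht j hj').1 (ht j hj').2), mul_assoc,
      ← Polynomial.map_prod, ← Polynomial.map_prod, ← Polynomial.map_mul,
      ← Polynomial.map_mul] at h1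
    rw [Finset.prod_congr rfl (fun j hj' => hF2 j (hs j hj').1 (hs j hj').2),
      Finset.prod_congr rfl (fun j hj' => hF2 j (ht j hj').1 (ht j hj').2), mul_assoc,
      ← Polynomial.map_prod, ← Polynomial.map_prod, ← Polynomial.map_mul,
      ← Polynomial.map_mul] at h2
    exact div_common (mul_ne_zero (Finset.prod_ne_zero_iff.2 fun j hj' =>
      hF0 j (hs j hj').1 (hs j hj').2) hQ0) h1 h2
  · have hmem : m ∈ (Finset.range (k + 1)).filter (fun j => ¬ Even j) :=
      Finset.mem_filter.2 ⟨Finset.mem_range.2 (by omega), hev⟩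
    have hs : ∀ j ∈ ((Finset.range (k + 1)).filter (fun j => ¬ Even j)).erase m,
        j ≤ k ∧ j ≠ m := by
      intro j hj'
      have h3 := Finset.mem_erase.1 hj'
      have h4 := Finset.mem_filter.1 h3.2
      have h5 := Finset.mem_range.1 h4.1
      exact ⟨by omega, h3.1⟩
    have ht : ∀ j ∈ (Finset.range (k + 1)).filter Even, j ≤ k ∧ j ≠ m := by
      intro j hj'
      have h4 := Finset.mem_filter.1 hj'
      have h5 := Finset.mem_range.1 h4.1
      refine ⟨by omega, ?_⟩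
      rintro rfl
      exact hev h4.2
    rw [← Finset.mul_prod_erase _ _ hmem] at h1 h2
    rw [Finset.prod_congr rfl (fun j hj' => hF1 j (hs j hj').1 (hs j hj').2),
      Finset.prod_congr rfl (fun j hj' => hF1 j (ht j hj').1 (ht j hj').2), mul_assoc,
      ← Polynomial.map_prod, ← Polynomial.map_prod, ← Polynomial.map_mul,
      ← Polynomial.map_mul] at h1
    rw [Finset.prod_congr rfl (fun j hj' => hF2 j (hs j hj').1 (hs j hj').2),
      Finset.prod_congr rfl (fun j hj' => hF2 j (ht j hj').1 (ht j hj').2), mul_assoc,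
      ← Polynomial.map_prod, ← Polynomial.map_prod, ← Polynomial.map_mul,
      ← Polynomial.map_mul] at h2
    exact div_common (mul_ne_zero (Finset.prod_ne_zero_iff.2 fun j hj' =>
      hF0 j (hs j hj').1 (hs j hj').2) hP0) h1.symm h2.symm

end

section

variable {Ω : Type w} [Field Ω] [CharZero Ω] [IsAlgClosed Ω] {R : Coh.{v, w} Ω} {q : ℕ}

/-- Equality of the polygons implies equality of the multiplicities. -/
theorem grDim_le_hodge (hq : 1 < q) (hR : R.IsCoh q) (m : ℕ)
    {M : ℤ → Submodule Ω R.V} (hM : IsMonodromyFiltrationOn (R.gr m) R.N M) {hdg : ℕ → ℕ}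
    (hfin : (Function.support hdg).Finite) (t : ℕ)
    (h : ∀ a : ℕ, (t : ℤ) < 2 * a - m → (hdg a : ℤ) ≤ grDim M (2 * a - m))
    (hle : monSum M (fun x => max (x - t) 0) ≤ hodgeSum m hdg (fun x => max (x - t) 0)) {c : ℕ}
    (hc : (t : ℤ) < 2 * c - m) : grDim M (2 * c - m) ≤ hdg c := by
  classical
  by_contra hcon
  push Not at hcon
  obtain ⟨_, ⟨S⟩⟩ := exists_strings hq hR m
  rw [monSum_eq hR m S hM] at hle
  have hs : hodgeSum m hdg (fun x => max (x - t) 0) = ∑ a ∈ insert c hfin.toFinset,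
      max (2 * (a : ℝ) - m - t) 0 * (hdg a : ℝ) := by
    unfold hodgeSum
    rw [finsum_eq_sum_of_support_subset (s := insert c hfin.toFinset)]
    intro a ha
    rw [Finset.coe_insert, Set.Finite.coe_toFinset]
    right
    intro h0
    apply ha
    simp only
    rw [h0]
    simp
  rw [hs] at hle
  have hterm : ∀ a : ℕ, (t : ℤ) < 2 * a - m →
      ∑ p ∈ Finset.univ.filter (fun p : S.P => S.ct p = 2 * a - m), max ((S.ct p : ℝ) - t) 0 =
        max (2 * (a : ℝ) - m - t) 0 * (grDim M (2 * a - m) : ℝ) := by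
    intro a ha
    rw [grDim_eq hR m S hM, Nat.card_eq_fintype_card, Fintype.card_subtype]
    have h3 : ∑ p ∈ Finset.univ.filter (fun p : S.P => S.ct p = 2 * a - m),
        max ((S.ct p : ℝ) - t) 0 =
        ∑ p ∈ Finset.univ.filter (fun p : S.P => S.ct p = 2 * a - m),
          max (2 * (a : ℝ) - m - t) 0 := by
      refine Finset.sum_congr rfl fun p hp => ?_
      rw [(Finset.mem_filter.1 hp).2]
      push_cast
      rfl
    rw [h3, Finset.sum_const, nsmul_eq_mul, mul_comm]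
    push_cast
    rfl
  have hlt : ∑ a ∈ insert c hfin.toFinset, max (2 * (a : ℝ) - m - t) 0 * (hdg a : ℝ) <
      ∑ a ∈ insert c hfin.toFinset, ∑ p ∈ Finset.univ.filter
        (fun p : S.P => S.ct p = 2 * a - m), max ((S.ct p : ℝ) - t) 0 := by
    refine Finset.sum_lt_sum (fun a _ => ?_) ⟨c, Finset.mem_insert_self _ _, ?_⟩
    · by_cases ha : (t : ℤ) < 2 * a - m
      · rw [hterm a ha]
        refine mul_le_mul_of_nonneg_left ?_ (le_max_right _ _)
        exact_mod_cast h a ha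
      · have h2 : max (2 * (a : ℝ) - m - t) 0 = 0 := by
          apply max_eq_right
          have h3 : (2 * (a : ℤ) - m : ℤ) ≤ t := by omega
          have h4 : (2 * (a : ℝ) - m) ≤ t := by exact_mod_cast h3
          linarith
        rw [h2, zero_mul]
        exact Finset.sum_nonneg fun p _ => le_max_right _ _
    · rw [hterm c hc]
      have h3 : (t : ℝ) < 2 * (c : ℝ) - m := by exact_mod_cast hc
      have h4 : (0 : ℝ) < max (2 * (c : ℝ) - m - t) 0 := lt_max_of_lt_left (by linarith)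
      refine mul_lt_mul_of_pos_left ?_ h4
      exact_mod_cast hcon
  have hle2 : ∑ a ∈ insert c hfin.toFinset, ∑ p ∈ Finset.univ.filter
        (fun p : S.P => S.ct p = 2 * a - m), max ((S.ct p : ℝ) - t) 0 ≤
      ∑ p : S.P, max ((S.ct p : ℝ) - t) 0 := by
    rw [← Finset.sum_biUnion]
    · exact Finset.sum_le_sum_of_subset_of_nonneg (Finset.subset_univ _)
        fun p _ _ => le_max_right _ _
    · intro a _ b _ hab
      rw [Function.onFun, Finset.disjoint_filter]
      intro p _ h2 h3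
      apply hab
      omega
  linarith

/-- The second moments. -/
lemma rankMoment_eq (hq : 1 < q) (hR : R.IsCoh q) (m : ℕ)
    {M : ℤ → Submodule Ω R.V} (hM : IsMonodromyFiltrationOn (R.gr m) R.N M) :
    (R.rankMoment m : ℝ) = monSum M (fun x => x ^ 2) := by
  obtain ⟨_, ⟨S⟩⟩ := exists_strings hq hR m
  rw [monSum_eq hR m S hM]
  have h3 : R.rankMoment m = ∑ p, S.ct p ^ 2 := by
    refine Eq.trans ?_ (Pool.Agent.Y461.MW.h Ω (R.gr m) _ _ S)
    refine finsum_congr fun k => ?_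
    rw [finrank_range_restrict]
  rw [h3]
  push_cast
  rfl

lemma weightMoment_eq' (hq : 1 < q) (hR : R.IsCoh q) (m : ℕ) :
    (R.weightMoment q m : ℝ) = weightSum R q m (fun x => x ^ 2) := by
  obtain ⟨hi, ⟨S⟩⟩ := exists_strings hq hR m
  have h4 : R.weightMoment q m = ∑ p, S.wt p ^ 2 := by
    rw [← S.weightMoment hi.submodule_iSupIndep]
    refine finsum_congr fun c => ?_
    have : finrank Ω (cgr R q m c) = finrank Ω (R.exc q m c) := finrank_comap (Coh.exc_le m c)
    rw [this]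
  rw [weightSum_eq hq hR m S, h4]
  push_cast
  rfl

omit [CharZero Ω] [IsAlgClosed Ω] in
lemma finite_hodge {val : Ω → ℝ} {m : ℕ} {hdg : ℕ → ℕ} (h : NewtonAboveHodge R val m hdg) :
    (Function.support hdg).Finite := by
  obtain ⟨n, α, a, hα, ha, _⟩ := h
  refine (Set.finite_range a).subset fun c hc => ?_
  rw [Function.mem_support, ← ha c] at hc
  by_contra hcon
  apply hc
  have : IsEmpty {i // a i = c} := ⟨fun i => hcon ⟨i.1, i.2⟩⟩
  exact Nat.card_of_isEmpty

end

section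

variable {Ω : Type w} [Field Ω] [CharZero Ω] [IsAlgClosed Ω] {R : Coh.{v, w} Ω}
  {Ω' : Type w'} [Field Ω'] [CharZero Ω'] [IsAlgClosed Ω'] {R' : Coh.{v', w'} Ω'} {q : ℕ}

/-- The four polygons. -/
theorem four (hq : 1 < q) (hR : R.IsCoh q) (hR' : R'.IsCoh q) {m : ℕ} (hmt : Matched R R' m)
    {val : Ω' → ℝ} (hv : IsVal q val) {hdg : ℕ → ℕ} (h : NewtonAboveHodge R' val m hdg)
    {M : ℤ → Submodule Ω R.V} (hM : IsMonodromyFiltrationOn (R.gr m) R.N M) {φ : ℝ → ℝ}
    (hφ : ConvexOn ℝ Set.univ φ) : monSum M φ ≤ weightSum R q m φ ∧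
      weightSum R q m φ ≤ newtonSum R' val m φ ∧ newtonSum R' val m φ ≤ hodgeSum m hdg φ := by
  obtain ⟨P, hP, hP'⟩ := hmt
  refine ⟨mon_le hq hR m hM hφ, ?_, newton_le h hφ⟩
  rw [weightSum_cmp hq hR hR' hP hP']
  exact weight_le hq hR' ⟨P, hP'⟩ hv hφ

/-- The consequences of maximality from `t` on. -/
theorem from_max (hq : 1 < q) (hR : R.IsCoh q) (hR' : R'.IsCoh q) {m : ℕ} (hmt : Matched R R' m)
    {val : Ω' → ℝ} (hv : IsVal q val) {hdg : ℕ → ℕ} (h : NewtonAboveHodge R' val m hdg)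
    {M : ℤ → Submodule Ω R.V} (hM : IsMonodromyFiltrationOn (R.gr m) R.N M) (t : ℕ)
    (hmax : ∀ a : ℕ, (t : ℤ) < 2 * a - m → (hdg a : ℤ) ≤ grDim M (2 * a - m)) :
    (∀ (k : ℤ), (t : ℤ) ≤ |k| → ∀ (α : Ω) (x : R.V), x ∈ M k → x ∉ M (k - 1) →
      R.F x - α • x ∈ M (k - 1) → IsWeilNumber q (m + k) α) ∧
    (∀ e : ℕ, t < e → (∀ x ∈ R.exc q m e, (R.N ^ e) x = 0 → x = 0) ∧
      ∀ y ∈ R.exc q m (-(e : ℤ)), ∃ x ∈ R.exc q m e, (R.N ^ e) x = y) ∧
    ∀ a : ℕ, (t : ℤ) < 2 * a - m → finrank Ω (R.exc q m (2 * a - m)) = hdg a := by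
  have hfin := finite_hodge h
  have h1 : ∀ T : ℕ, t ≤ T → weightSum R q m (fun x => max (x - T) 0) ≤
      monSum M (fun x => max (x - T) 0) := by
    intro T hT
    obtain ⟨_, h2, h3⟩ := four hq hR hR' hmt hv h hM (convex_pos T)
    exact (h2.trans h3).trans (hodge_le_mon hq hR m hM hfin t hmax hT)
  obtain ⟨h4, h5, h6⟩ := right_from hq hR m hM t h1
  refine ⟨h4, h5, fun a ha => ?_⟩
  obtain ⟨h7, h8, h9⟩ := four hq hR hR' hmt hv h hM (convex_pos t)
  have h10 := grDim_le_hodge hq hR m hM hfin t hmax ((h7.trans h8).trans h9) ha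
  have h11 := h6 _ ha
  have h12 := hmax a ha
  have h13 : (finrank Ω (R.exc q m (2 * a - m)) : ℤ) = hdg a := by omega
  exact_mod_cast h13

/-- The number of wrong weights. -/
theorem few_wrong (hq : 1 < q) (hR : R.IsCoh q) (hR' : R'.IsCoh q) {m : ℕ} (hmt : Matched R R' m)
    {val : Ω' → ℝ} (hv : IsVal q val) {hdg : ℕ → ℕ} (h : NewtonAboveHodge R' val m hdg)
    {M : ℤ → Submodule Ω R.V} (hM : IsMonodromyFiltrationOn (R.gr m) R.N M) :
    (finrank Ω (R.gr m) : ℝ) - rightDeg R q m M ≤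
      hodgeSum m hdg (fun x => x ^ 2) - monSum M (fun x => x ^ 2) := by
  have h1 := wrong_le hq hR m hM
  have h2 : ((finrank Ω (R.gr m) : ℤ) : ℝ) - rightDeg R q m M ≤
      (R.weightMoment q m : ℝ) - R.rankMoment m := by exact_mod_cast h1
  rw [rankMoment_eq hq hR m hM, weightMoment_eq' hq hR m] at h2
  have hsq : ConvexOn ℝ Set.univ (fun x : ℝ => x ^ 2) := Even.convexOn_pow (by decide)
  obtain ⟨_, h3, h4⟩ := four hq hR hR' hmt hv h hM hsq
  push_cast at h2
  linarith

end

end Pool.Agent.Y163.MQ
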