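import Pool.Agent.Y163.MX.Defs

/-!
# The four polygons
-/

set_option autoImplicit false

open Module

namespace Pool.Agent.Y163.MQ

universe u v v' w w'

open Pool.Agent.H914 Pool.Agent.Y143 Pool.Agent.Y163.MW Pool.Agent.Y163.MX

section

variable {Ω : Type w} [Field Ω] {V : Type v} [AddCommGroup V] [Module Ω V]

/-- The dimension of the graded piece `M_k / M_(k - 1)`. -/
noncomputable def grDim (M : ℤ → Submodule Ω V) (k : ℤ) : ℤ :=
  (finrank Ω (M k) : ℤ) - finrank Ω (M (k - 1))

/-- The sum of `φ k`, `k` in `ℤ` with the multiplicity `dim M_k / M_(k - 1)`. -/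
noncomputable def monSum (M : ℤ → Submodule Ω V) (φ : ℝ → ℝ) : ℝ :=
  ∑ᶠ k : ℤ, φ k * (grDim M k : ℝ)

/-- The sum of `φ (w - m)` over the weights `w` of the eigenvalues of `F` on `H^m`. -/
noncomputable def weightSum [CharZero Ω] (R : Coh.{v, w} Ω) (q m : ℕ) (φ : ℝ → ℝ) : ℝ :=
  ∑ᶠ c : ℤ, φ c * (finrank Ω (R.exc q m c) : ℝ)

/-- The sum of `φ (2 λ - m)` over the slopes `λ` of the eigenvalues of `F` on `H^m`. -/
noncomputable def newtonSum (R : Coh.{v, w} Ω) (val : Ω → ℝ) (m : ℕ) (φ : ℝ → ℝ) : ℝ :=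
  ∑ᶠ α : Ω, φ (2 * val α - m) * (mult R m α : ℝ)

end

/-- The sum of `φ (a - b)`, `a + b = m`, with the multiplicities `h^(a,b)`. -/
noncomputable def hodgeSum (m : ℕ) (hdg : ℕ → ℕ) (φ : ℝ → ℝ) : ℝ :=
  ∑ᶠ a : ℕ, φ (2 * (a : ℝ) - m) * (hdg a : ℝ)

section

variable {Ω : Type w} [Field Ω] [CharZero Ω] {Ω' : Type w'} [Field Ω'] [CharZero Ω']

/-- The characteristic polynomials of `F` on the two cohomology groups `H^m` have rational
coefficients and are equal. -/
def Matched (R : Coh.{v, w} Ω) (R' : Coh.{v', w'} Ω') (m : ℕ) : Prop :=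
  ∃ P : Polynomial ℚ, charP R m = P.map (algebraMap ℚ Ω) ∧ charP R' m = P.map (algebraMap ℚ Ω')

/-- The quotient of the products of the characteristic polynomials of `F` on the `H^j`, `j ≤ k`,
with `j` even and with `j` odd is `P / Q`. -/
def AltEq (R : Coh.{v, w} Ω) (k : ℕ) (P Q : Polynomial ℚ) : Prop :=
  (∏ j ∈ (Finset.range (k + 1)).filter Even, charP R j) * Q.map (algebraMap ℚ Ω) =
    (∏ j ∈ (Finset.range (k + 1)).filter (fun j => ¬ Even j), charP R j) * P.map (algebraMap ℚ Ω)

/-- These quotients are the same rational function with rational coefficients for the two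
cohomologies. -/
def SameAlternating (R : Coh.{v, w} Ω) (R' : Coh.{v', w'} Ω') (k : ℕ) : Prop :=
  ∃ P Q : Polynomial ℚ, P ≠ 0 ∧ Q ≠ 0 ∧ AltEq R k P Q ∧ AltEq R' k P Q

end

/-- The data given by the cohomology of the smooth proper varieties over the finite extension `K`
of `ℚ_p`: the `ℓ`-adic cohomology `Hl`, with coefficients in the algebraically closed field `Ω`, and
the Hyodo-Kato cohomology `Hp` with coefficients in the algebraically closed field `Ω'`, the action
of (the same) geometric Frobenius element of the Weil group and of the monodromy on them; the Hodge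
numbers; the `p`-adic valuation of `Ω'`. -/
structure LPTheory (K : Type u) [Field K] (Ω : Type w) [Field Ω] (Ω' : Type w') [Field Ω'] where
  /-- the `ℓ`-adic cohomology -/
  Hl : SmVar.{u} K → Coh.{v, w} Ω
  /-- the Hyodo-Kato cohomology -/
  Hp : SmVar.{u} K → Coh.{v', w'} Ω'
  /-- the Hodge numbers `hodge X m a = h^(a, m - a)(X)` -/
  hodge : SmVar.{u} K → ℕ → ℕ → ℕ
  /-- the valuation -/
  val : Ω' → ℝ

/-- The known properties. -/
structure LPTheory.IsLocal {K : Type u} [Field K] {Ω : Type w} [Field Ω] [CharZero Ω]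
    {Ω' : Type w'} [Field Ω'] [CharZero Ω'] (T : LPTheory.{u, v, v', w, w'} K Ω Ω') (q : ℕ) :
    Prop where
  cohl : ∀ X, (T.Hl X).IsCoh q
  cohp : ∀ X, (T.Hp X).IsCoh q
  val : IsVal q T.val
  polygons : ∀ X m, NewtonAboveHodge (T.Hp X) T.val m (T.hodge X m)
  compare : ∀ X, SameAlternating (T.Hl X) (T.Hp X) (2 * X.dim)

end Pool.Agent.Y163.MQ
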