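import Pool.Agent.Y163.MQ.Pure
import Pool.Agent.Y163.MQ.Defs

/-!
# The monodromy polygon and the weight polygon
-/

set_option autoImplicit false

open Module

namespace Pool.Agent.Y163.MQ

universe u v w

open Pool.Agent.Y143 Pool.Agent.Y163.MW Pool.Agent.Y163.MX

variable {Ω : Type w} [Field Ω] [CharZero Ω] [IsAlgClosed Ω] {R : Coh.{v, w} Ω} {q : ℕ}

/-- Symmetry of the weights on `H^m`. -/
lemma finrank_exc_neg (hq : 1 < q) (hR : R.IsCoh q) (m : ℕ) (c : ℤ) :
    finrank Ω (R.exc q m c) = finrank Ω (R.exc q m (-c)) := by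
  have := hR.finite
  have key : ∀ c : ℤ, finrank Ω (R.exc q m c) ≤ finrank Ω (R.exc q m (-c)) := by
    intro c
    obtain ⟨B, hB⟩ := hR.dual
    have hB0 : ∀ x, (∀ y, B x y = 0) → x = 0 := hB.nondeg
    have hB1 : ∀ m m' x y, x ∈ R.gr m → y ∈ R.gr m' → m ≠ m' → B x y = 0 := hB.orth
    have hB2 : ∀ m x y, x ∈ R.gr m → y ∈ R.gr m → B (R.F x) (R.F y) = (q : Ω) ^ m * B x y :=
      hB.frob
    let φ : R.exc q m c →ₗ[Ω] Module.Dual Ω (R.exc q m (-c)) :=
      { toFun := fun x => (B x).comp (R.exc q m (-c)).subtype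
        map_add' := fun x y => by ext z; simp
        map_smul' := fun a x => by ext z; simp }
    have hφ : Function.Injective φ := by
      rw [← LinearMap.ker_eq_bot, LinearMap.ker_eq_bot']
      intro x hx
      apply Subtype.ext
      apply hB0
      have hxm : (x : R.V) ∈ R.gr m := Coh.exc_le m c x.2
      have h1 : ∀ m' c', ∀ y ∈ R.exc q m' c', B x y = 0 := by
        intro m' c' y hy
        by_cases hm : m' = m
        · subst hm
          by_cases hc : c' = -c
          · subst hc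
            exact DFunLike.congr_fun hx ⟨y, hy⟩
          · have h2 : R.exc q m' c ≤ LinearMap.ker (B.flip y) := by
              refine iSup₂_le fun α hα z hz => ?_
              rw [LinearMap.mem_ker, LinearMap.flip_apply]
              have h4 : R.exc q m' c' ≤ LinearMap.ker (B z) := by
                refine iSup₂_le fun β hβ t ht => ?_
                rw [LinearMap.mem_ker]
                refine gen_orth (hR.F_gr m') (hB2 m') ?_ (Submodule.mem_inf.1 hz).1
                  (Submodule.mem_inf.1 ht).1 (Submodule.mem_inf.1 hz).2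
                  (Submodule.mem_inf.1 ht).2
                intro h5
                have h6 := weil_mul (by omega) hα hβ
                rw [h5] at h6
                have h7 := weil_unique hq h6 (weil_natPow (by omega) m')
                omega
              exact LinearMap.mem_ker.1 (h4 hy)
            exact LinearMap.mem_ker.1 (h2 x.2)
        · exact hB1 m m' x y hxm (Coh.exc_le m' c' hy) (Ne.symm hm)
      intro y
      have h8 : (⊤ : Submodule Ω R.V) ≤ LinearMap.ker (B x) := by
        rw [← hR.isInternal.submodule_iSup_eq_top]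
        refine iSup_le fun m' => ?_
        rw [← Coh.iSup_exc hR m']
        exact iSup_le fun c' y hy => LinearMap.mem_ker.2 (h1 m' c' y hy)
      exact LinearMap.mem_ker.1 (h8 (Submodule.mem_top))
    have := LinearMap.finrank_le_finrank_of_injective hφ
    rwa [Subspace.dual_finrank_eq] at this
  apply le_antisymm (key c)
  have := key (-c)
  rwa [neg_neg] at this

/-- The grading of `H^m` by the excess of the weight. -/
def cgr (R : Coh.{v, w} Ω) (q m : ℕ) (c : ℤ) : Submodule Ω (R.gr m) :=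
  (R.exc q m c).comap (R.gr m).subtype

/-- The existence of strings. -/
lemma exists_strings (hq : 1 < q) (hR : R.IsCoh q) (m : ℕ) :
    DirectSum.IsInternal (cgr R q m) ∧ Nonempty (Strings (cgr R q m) (R.N.restrict (hR.N_gr m))) := by
  have := hR.finite
  have hi := internal_comap (Coh.indep_exc_deg hq hR m) (Coh.iSup_exc hR m)
  exact ⟨hi, Pool.Agent.Y153.MW.stA Ω (R.gr m) (cgr R q m) (R.N.restrict (hR.N_gr m)) hi
    (fun c x hx => Coh.N_exc hq hR m c x hx)⟩

lemma card_wt (hq : 1 < q) (hR : R.IsCoh q) (m : ℕ)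
    (S : Strings (cgr R q m) (R.N.restrict (hR.N_gr m))) (c : ℤ) :
    Nat.card {p // S.wt p = c} = finrank Ω (R.exc q m c) := by
  have hi := internal_comap (Coh.indep_exc_deg hq hR m) (Coh.iSup_exc hR m)
  rw [← finrank_comap (Coh.exc_le m c)]
  exact (finrank_gr hi.submodule_iSupIndep S.b S.wt S.mem' c).symm

lemma sym_wt (hq : 1 < q) (hR : R.IsCoh q) (m : ℕ)
    (S : Strings (cgr R q m) (R.N.restrict (hR.N_gr m))) (r : ℤ) :
    Nat.card {p // S.wt p = r} = Nat.card {p // S.wt p = -r} := by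
  rw [card_wt hq hR, card_wt hq hR, finrank_exc_neg hq hR]

lemma weightSum_eq (hq : 1 < q) (hR : R.IsCoh q) (m : ℕ)
    (S : Strings (cgr R q m) (R.N.restrict (hR.N_gr m))) (φ : ℝ → ℝ) :
    weightSum R q m φ = ∑ p : S.P, φ (S.wt p) := by
  rw [← finsum_fib S.wt (fun c : ℤ => φ c)]
  refine finsum_congr fun c => ?_
  rw [card_wt hq hR]

lemma grDim_eq (hR : R.IsCoh q) (m : ℕ)
    (S : Strings (cgr R q m) (R.N.restrict (hR.N_gr m))) {M : ℤ → Submodule Ω R.V}
    (hM : IsMonodromyFiltrationOn (R.gr m) R.N M) (k : ℤ) :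
    grDim M k = Nat.card {p : S.P // S.ct p = k} := by
  rw [← dim_gr S (filtration_comap (hR.N_gr m) hM) k]
  unfold grDim
  rw [finrank_comap (hM.le k), finrank_comap (hM.le (k - 1))]

lemma monSum_eq (hR : R.IsCoh q) (m : ℕ)
    (S : Strings (cgr R q m) (R.N.restrict (hR.N_gr m))) {M : ℤ → Submodule Ω R.V}
    (hM : IsMonodromyFiltrationOn (R.gr m) R.N M) (φ : ℝ → ℝ) :
    monSum M φ = ∑ p : S.P, φ (S.ct p) := by
  rw [← finsum_fib S.ct (fun c : ℤ => φ c)]
  refine finsum_congr fun c => ?_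
  rw [grDim_eq hR m S hM]
  push_cast
  rfl

/-- The monodromy polygon lies above the weight polygon. -/
theorem mon_le (hq : 1 < q) (hR : R.IsCoh q) (m : ℕ) {M : ℤ → Submodule Ω R.V}
    (hM : IsMonodromyFiltrationOn (R.gr m) R.N M) {φ : ℝ → ℝ} (hφ : ConvexOn ℝ Set.univ φ) :
    monSum M φ ≤ weightSum R q m φ := by
  obtain ⟨_, ⟨S⟩⟩ := exists_strings hq hR m
  rw [monSum_eq hR m S hM, weightSum_eq hq hR m S]
  exact sum_ct_le S (sym_wt hq hR m S) hφ

/-- The consequences of the equality of the polygons from `t` on. -/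
theorem right_from (hq : 1 < q) (hR : R.IsCoh q) (m : ℕ) {M : ℤ → Submodule Ω R.V}
    (hM : IsMonodromyFiltrationOn (R.gr m) R.N M) (t : ℕ)
    (h : ∀ T : ℕ, t ≤ T → weightSum R q m (fun x => max (x - T) 0) ≤
      monSum M (fun x => max (x - T) 0)) :
    (∀ (k : ℤ), (t : ℤ) ≤ |k| → ∀ (α : Ω) (x : R.V), x ∈ M k → x ∉ M (k - 1) →
      R.F x - α • x ∈ M (k - 1) → IsWeilNumber q (m + k) α) ∧
    (∀ e : ℕ, t < e → (∀ x ∈ R.exc q m e, (R.N ^ e) x = 0 → x = 0) ∧
      ∀ y ∈ R.exc q m (-(e : ℤ)), ∃ x ∈ R.exc q m e, (R.N ^ e) x = y) ∧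
    ∀ k : ℤ, (t : ℤ) < k → (finrank Ω (R.exc q m k) : ℤ) = grDim M k := by
  have := hR.finite
  obtain ⟨hi, ⟨S⟩⟩ := exists_strings hq hR m
  have hS : RightFrom S t := by
    intro s
    refine right_strings S (sym_wt hq hR m S) t (fun T hT => ?_) s
    apply le_antisymm
    · exact sum_ct_le S (sym_wt hq hR m S) (convex_pos T)
    · have := h T hT
      rwa [weightSum_eq hq hR m S, monSum_eq hR m S hM] at this
  have hpow : ∀ (k : ℕ) (x : R.gr m), (((R.N.restrict (hR.N_gr m)) ^ k) x : R.V) =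
      (R.N ^ k) x := by
    intro k x
    rw [Module.End.pow_restrict]
    rfl
  refine ⟨?_, ?_, ?_⟩
  · intro k hk α x hx hx1 hx2
    have hFM : ∀ s x, x ∈ M s → R.F x ∈ M s := fun s x hx =>
      hM.functorial hM R.F (hR.F_gr m) (c := (q : Ω)) (Nat.cast_ne_zero.2 (by omega))
        (fun x _ => hR.N_F x) s hx
    obtain ⟨y, hy, hy0, hFy⟩ := pure_of S (F := R.F.restrict (hR.F_gr m))
      (fun c x hx => Coh.F_exc hR m c x hx) (filtration_comap (hR.N_gr m) hM)
      (fun s x hx => hFM s x hx) (k := k) (fun p hp => by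
        have h1 := hS p.1
        have h2 := p.2.2
        unfold Strings.ct at hp
        unfold Strings.wt
        rcases abs_cases k with h3 | h3 <;> omega)
      (α := α) (x := ⟨x, hM.le _ hx⟩) hx hx1 hx2
    refine Coh.eigen_exc hq hR (x := (y : R.V)) hy (fun h0 => hy0 (Subtype.ext h0)) ?_
    exact congrArg Subtype.val hFy
  · intro e he
    obtain ⟨h1, h2⟩ := iso_of hi S hS he
    refine ⟨fun x hx h0 => ?_, fun y hy => ?_⟩
    · have h3 := h1 ⟨x, Coh.exc_le m _ hx⟩ hx (Subtype.ext (by rw [hpow]; exact h0))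
      exact congrArg Subtype.val h3
    · obtain ⟨x, hx, hxy⟩ := h2 ⟨y, Coh.exc_le m _ hy⟩ hy
      refine ⟨x, hx, ?_⟩
      rw [← hpow, hxy]
  · intro k hk
    rw [grDim_eq hR m S hM, ← card_wt hq hR m S]
    congr 1
    refine Nat.card_congr (Equiv.subtypeEquivRight fun p => ?_)
    have h1 := hS p.1
    have h2 := p.2.2
    unfold Strings.ct Strings.wt
    omega

end Pool.Agent.Y163.MQ
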