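import Pool.Agent.Y163.MX.Kar

/-!
# The inequality of Karamata for convex functions
-/

set_option autoImplicit false

namespace Pool.Agent.Y163.MQ

open Pool.Agent.Y163.MX

/-- A convex function has a nondecreasing subgradient. -/
lemma exists_subgradient {φ : ℝ → ℝ} (h : ConvexOn ℝ Set.univ φ) :
    ∃ g : ℝ → ℝ, Monotone g ∧ ∀ x y, φ x + g x * (y - x) ≤ φ y := by
  have hint : ∀ x : ℝ, x ∈ interior (Set.univ : Set ℝ) := fun x => by simp
  refine ⟨fun x => derivWithin φ (Set.Ioi x) x, ?_, fun x y => ?_⟩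
  · intro x y hxy
    exact h.monotoneOn_rightDeriv (hint x) (hint y) hxy
  · rcases lt_trichotomy x y with hxy | hxy | hxy
    · have h1 := h.rightDeriv_le_slope_of_mem_interior (hint x) (Set.mem_univ y) hxy
      rw [slope_def_field, le_div_iff₀ (by linarith)] at h1
      linarith
    · subst hxy
      simp
    · have h1 := h.slope_le_leftDeriv_of_mem_interior (Set.mem_univ y) (hint x) hxy
      have h2 := h.leftDeriv_le_rightDeriv_of_mem_interior (hint x)
      have h3 := h1.trans h2
      rw [slope_def_field, div_le_iff₀ (by linarith)] at h3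
      linarith

/-- The inequality of Karamata. -/
theorem karamata_convex {n : ℕ} (v a : Fin n → ℝ) (hv : Monotone v)
    (hle : ∀ k : ℕ, ∑ i ∈ Finset.univ.filter (fun i : Fin n => (i : ℕ) < k), a i ≤
      ∑ i ∈ Finset.univ.filter (fun i : Fin n => (i : ℕ) < k), v i)
    (heq : ∑ i, a i = ∑ i, v i) {φ : ℝ → ℝ} (hφ : ConvexOn ℝ Set.univ φ) :
    ∑ i, φ (v i) ≤ ∑ i, φ (a i) := by
  classical
  obtain ⟨g, hg, hsub⟩ := exists_subgradient hφ
  let V : ℕ → ℝ := fun i => if h : i < n then g (v ⟨i, h⟩) else 0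
  let D : ℕ → ℝ := fun i => if h : i < n then a ⟨i, h⟩ - v ⟨i, h⟩ else 0
  have hpart : ∀ k, k ≤ n → ∑ i ∈ Finset.range k, D i =
      ∑ i ∈ Finset.univ.filter (fun i : Fin n => (i : ℕ) < k), a i -
        ∑ i ∈ Finset.univ.filter (fun i : Fin n => (i : ℕ) < k), v i := by
    intro k hk
    rw [← Finset.sum_sub_distrib]
    symm
    refine Finset.sum_bij (fun i _ => (i : ℕ)) ?_ ?_ ?_ ?_
    · intro i hi
      exact Finset.mem_range.2 (Finset.mem_filter.1 hi).2
    · intro i _ j _ hij
      exact Fin.ext hij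
    · intro i hi
      have h1 := Finset.mem_range.1 hi
      exact ⟨⟨i, by omega⟩, Finset.mem_filter.2 ⟨Finset.mem_univ _, h1⟩, rfl⟩
    · intro i hi
      simp only [D]
      rw [dif_pos i.2]
  have h1 := abel_nonneg n V D ?_ ?_ ?_
  · have h2 : ∑ i ∈ Finset.range n, V i * D i = ∑ i : Fin n, g (v i) * (a i - v i) := by
      rw [Finset.sum_range]
      refine Finset.sum_congr rfl fun i _ => ?_
      simp only [V, D]
      rw [dif_pos i.2, dif_pos i.2]
    rw [h2] at h1
    have h3 : ∑ i, (φ (v i) + g (v i) * (a i - v i)) ≤ ∑ i, φ (a i) :=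
      Finset.sum_le_sum fun i _ => hsub (v i) (a i)
    rw [Finset.sum_add_distrib] at h3
    linarith
  · intro i hi
    simp only [V]
    rw [dif_pos (by omega), dif_pos hi]
    exact hg (hv (by rw [Fin.mk_le_mk]; omega))
  · intro k hk
    rw [hpart k hk]
    have := hle k
    linarith
  · rw [hpart n le_rfl]
    have h4 : Finset.univ.filter (fun i : Fin n => (i : ℕ) < n) = Finset.univ := by
      ext i
      simp
    rw [h4, heq, sub_self]

/-- The midpoint inequality. -/
lemma convex_mid {φ : ℝ → ℝ} (hφ : ConvexOn ℝ Set.univ φ) (x y : ℝ) :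
    2 * φ ((x + y) / 2) ≤ φ x + φ y := by
  have h := hφ.2 (Set.mem_univ x) (Set.mem_univ y) (by norm_num : (0 : ℝ) ≤ 1 / 2)
    (by norm_num : (0 : ℝ) ≤ 1 / 2) (by norm_num)
  simp only [smul_eq_mul] at h
  rw [show 1 / 2 * x + 1 / 2 * y = (x + y) / 2 by ring] at h
  linarith

/-- The positive part of `x - T` is a convex function of `x`. -/
lemma convex_pos (T : ℝ) : ConvexOn ℝ Set.univ (fun x : ℝ => max (x - T) 0) := by
  refine ConvexOn.sup ?_ (convexOn_const 0 convex_univ)
  have h : (fun x : ℝ => x - T) = fun x : ℝ => x + (-T) := by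
    ext x
    ring
  rw [h]
  exact (convexOn_id convex_univ).add (convexOn_const (-T) convex_univ)

end Pool.Agent.Y163.MQ
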