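import Pool.Agent.Y163.MQ.Deg

/-!
# The weight polygon, the Newton polygon and the Hodge polygon
-/

set_option autoImplicit false

open Module

namespace Pool.Agent.Y163.MQ

universe u v v' w w'

open Pool.Agent.Y143 Pool.Agent.Y163.MW Pool.Agent.Y163.MX

section

variable {Ω : Type w} [Field Ω] [CharZero Ω] {R : Coh.{v, w} Ω} {q : ℕ}

/-- The valuations of the powers of `q`. -/
lemma val_zpow (hq : 1 < q) {val : Ω → ℝ} (hv : IsVal q val) (n : ℤ) :
    val ((q : Ω) ^ n) = n := by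
  have hq0 : (q : Ω) ≠ 0 := Nat.cast_ne_zero.2 (by omega)
  have hvz : ∀ n : ℕ, val ((q : Ω) ^ n) = n := by
    intro n
    induction n with
    | zero =>
      have h3 := hv.mul 1 1 one_ne_zero one_ne_zero
      rw [mul_one] at h3
      rw [pow_zero]
      push_cast
      linarith
    | succ n ih =>
      rw [pow_succ, hv.mul _ _ (pow_ne_zero _ hq0) hq0, ih, hv.norm]
      push_cast
      ring
  rcases le_total 0 n with hn | hn
  · obtain ⟨k, rfl⟩ := Int.eq_ofNat_of_zero_le hn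
    rw [zpow_natCast, hvz]
    simp
  · obtain ⟨k, hk⟩ : ∃ k : ℕ, n = -(k : ℤ) := ⟨n.natAbs, by omega⟩
    subst hk
    have h4 := hv.mul ((q : Ω) ^ (-(k : ℤ))) ((q : Ω) ^ k) (zpow_ne_zero _ hq0)
      (pow_ne_zero _ hq0)
    rw [← zpow_natCast (q : Ω) k, ← zpow_add₀ hq0, neg_add_cancel, zpow_zero, zpow_natCast,
      hvz] at h4
    have h5 := hvz 0
    rw [pow_zero] at h5
    rw [h5] at h4
    push_cast at h4 ⊢
    linarith

/-- The sum over the weights as a sum over the eigenvalues. -/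
lemma weightSum_finsum [IsAlgClosed Ω] (hq : 1 < q) (hR : R.IsCoh q) (m : ℕ) (φ : ℝ → ℝ) :
    weightSum R q m φ = ∑ᶠ α : Ω, φ ((Coh.wtf q α : ℝ) - m) * (mult R m α : ℝ) := by
  classical
  obtain ⟨I, _, b, p, hb⟩ := exists_basis hR
  rw [finsum_mult hR hb m (fun α => φ ((Coh.wtf q α : ℝ) - m))]
  have h1 := finsum_fib (fun i : {i // (p i).1 = m} => Coh.wtf q (p i.1).2 - (m : ℤ))
    (fun c : ℤ => φ c)
  push_cast at h1
  rw [← h1]
  unfold weightSum
  refine finsum_congr fun c => ?_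
  rw [finrank_exc hq hR hb m c]
  congr 2
  refine Nat.card_congr ?_
  refine (Equiv.subtypeEquivRight fun i => ?_).trans
    (Equiv.subtypeSubtypeEquivSubtypeInter (fun i => (p i).1 = m)
      (fun i => Coh.wtf q (p i).2 - (m : ℤ) = c)).symm
  rw [Prod.ext_iff]
  constructor
  · rintro ⟨h1, h2⟩
    simp only at h1 h2
    exact ⟨h1, by rw [← h1]; exact h2⟩
  · rintro ⟨h1, h2⟩
    exact ⟨h1, by simp only; rw [h1]; exact h2⟩

/-- The weight polygon lies above the Newton polygon. -/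
theorem weight_le [IsAlgClosed Ω] (hq : 1 < q) (hR : R.IsCoh q) {m : ℕ}
    (hrat : RationalPoly (charP R m)) {val : Ω → ℝ} (hv : IsVal q val) {φ : ℝ → ℝ}
    (hφ : ConvexOn ℝ Set.univ φ) : weightSum R q m φ ≤ newtonSum R val m φ := by
  classical
  rw [weightSum_finsum hq hR]
  unfold newtonSum
  have hfin := finite_mult hR m
  have hq0 : (q : Ω) ≠ 0 := Nat.cast_ne_zero.2 (by omega)
  have h1 : ∀ g : Ω → ℝ, ∑ᶠ α : Ω, g α * (mult R m α : ℝ) =
      ∑ α ∈ hfin.toFinset, g α * (mult R m α : ℝ) := by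
    intro g
    refine finsum_eq_sum_of_support_subset _ ?_
    intro α hα
    rw [Set.Finite.coe_toFinset]
    intro h0
    apply hα
    simp only
    rw [h0]
    simp
  rw [h1 (fun α => φ ((Coh.wtf q α : ℝ) - m)), h1 (fun α => φ (2 * val α - m))]
  -- the involution
  let ι : Ω → Ω := fun α => (q : Ω) ^ (Coh.wtf q α) / α
  have hw : ∀ α ∈ hfin.toFinset, IsWeilNumber q (Coh.wtf q α) α := by
    intro α hα
    rw [Set.Finite.mem_toFinset] at hα
    obtain ⟨w, hw⟩ : ∃ w : ℤ, IsWeilNumber q w α := by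
      by_contra hcon
      exact hα (mult_eq_zero hR hcon)
    rwa [Coh.wtf_eq hq hw]
  have hwι : ∀ α ∈ hfin.toFinset, Coh.wtf q (ι α) = Coh.wtf q α := fun α hα =>
    Coh.wtf_eq hq (weil_conj hq (hw α hα))
  have hmι : ∀ α ∈ hfin.toFinset, mult R m (ι α) = mult R m α := fun α hα =>
    mult_conj hq hR hrat (hw α hα)
  have hι : ∀ α ∈ hfin.toFinset, ι α ∈ hfin.toFinset := by
    intro α hα
    have h2 := hmι α hα
    rw [Set.Finite.mem_toFinset] at hα ⊢
    show mult R m (ι α) ≠ 0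
    rw [h2]
    exact hα
  have hιι : ∀ α ∈ hfin.toFinset, ι (ι α) = α := by
    intro α hα
    have hα0 : α ≠ 0 := weil_ne_zero (by omega) (hw α hα)
    show (q : Ω) ^ (Coh.wtf q (ι α)) / ι α = α
    rw [hwι α hα]
    show (q : Ω) ^ (Coh.wtf q α) / ((q : Ω) ^ (Coh.wtf q α) / α) = α
    have := zpow_ne_zero (Coh.wtf q α) hq0
    field_simp
  have hval : ∀ α ∈ hfin.toFinset, val (ι α) = Coh.wtf q α - val α := by
    intro α hα
    have hα0 : α ≠ 0 := weil_ne_zero (by omega) (hw α hα)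
    have h3 := hv.mul (ι α) α (div_ne_zero (zpow_ne_zero _ hq0) hα0) hα0
    have h4 : ι α * α = (q : Ω) ^ (Coh.wtf q α) := div_mul_cancel₀ _ hα0
    rw [h4, val_zpow hq hv] at h3
    linarith
  have hsum : ∑ α ∈ hfin.toFinset, φ (2 * val α - m) * (mult R m α : ℝ) =
      ∑ α ∈ hfin.toFinset, φ (2 * val (ι α) - m) * (mult R m (ι α) : ℝ) := by
    refine Finset.sum_bij (fun α _ => ι α) (fun α hα => hι α hα) ?_ ?_ ?_
    · intro α hα β hβ h
      rw [← hιι α hα, ← hιι β hβ, h]
    · intro α hα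
      exact ⟨ι α, hι α hα, hιι α hα⟩
    · intro α hα
      rw [hιι α hα]
  have hle : ∑ α ∈ hfin.toFinset, 2 * (φ ((Coh.wtf q α : ℝ) - m) * (mult R m α : ℝ)) ≤
      ∑ α ∈ hfin.toFinset, (φ (2 * val α - m) * (mult R m α : ℝ) +
        φ (2 * val (ι α) - m) * (mult R m (ι α) : ℝ)) := by
    refine Finset.sum_le_sum fun α hα => ?_
    rw [hmι α hα, hval α hα]
    have h2 := convex_mid hφ (2 * val α - m) (2 * ((Coh.wtf q α : ℝ) - val α) - m)
    rw [show (2 * val α - (m : ℝ) + (2 * ((Coh.wtf q α : ℝ) - val α) - m)) / 2 =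
      (Coh.wtf q α : ℝ) - m by ring] at h2
    have h3 : (0 : ℝ) ≤ (mult R m α : ℝ) := Nat.cast_nonneg _
    nlinarith
  rw [← Finset.mul_sum, Finset.sum_add_distrib, ← hsum] at hle
  linarith

omit [CharZero Ω] in
/-- The Newton polygon lies above the Hodge polygon. -/
theorem newton_le {val : Ω → ℝ} {m : ℕ} {hdg : ℕ → ℕ} (h : NewtonAboveHodge R val m hdg)
    {φ : ℝ → ℝ} (hφ : ConvexOn ℝ Set.univ φ) : newtonSum R val m φ ≤ hodgeSum m hdg φ := by
  obtain ⟨n, α, a, hα, ha, hmv, hma, hle, heq⟩ := h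
  have h1 : newtonSum R val m φ = ∑ i, φ (2 * val (α i) - (m : ℝ)) := by
    rw [← finsum_fib α (fun x => φ (2 * val x - (m : ℝ)))]
    unfold newtonSum
    refine finsum_congr fun x => ?_
    rw [hα]
  have h2 : hodgeSum m hdg φ = ∑ i, φ (2 * (a i : ℝ) - (m : ℝ)) := by
    rw [← finsum_fib a (fun x : ℕ => φ (2 * (x : ℝ) - (m : ℝ)))]
    unfold hodgeSum
    refine finsum_congr fun x => ?_
    rw [ha]
  rw [h1, h2]
  refine karamata_convex (φ := φ) (fun i => 2 * val (α i) - (m : ℝ))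
    (fun i => 2 * (a i : ℝ) - (m : ℝ)) ?_ ?_ ?_ hφ
  · intro i j hij
    have := hmv hij
    simp only at this ⊢
    linarith
  · intro k
    rw [Finset.sum_sub_distrib, Finset.sum_sub_distrib, ← Finset.mul_sum, ← Finset.mul_sum]
    have := hle k
    linarith
  · rw [Finset.sum_sub_distrib, Finset.sum_sub_distrib, ← Finset.mul_sum, ← Finset.mul_sum, heq]

/-- If the graded pieces of the monodromy filtration are as large as the Hodge numbers allow. -/
theorem hodge_le_mon [IsAlgClosed Ω] (hq : 1 < q) (hR : R.IsCoh q) (m : ℕ)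
    {M : ℤ → Submodule Ω R.V} (hM : IsMonodromyFiltrationOn (R.gr m) R.N M) {hdg : ℕ → ℕ}
    (hfin : (Function.support hdg).Finite) (t : ℕ)
    (h : ∀ a : ℕ, (t : ℤ) < 2 * a - m → (hdg a : ℤ) ≤ grDim M (2 * a - m)) {T : ℕ} (hT : t ≤ T) :
    hodgeSum m hdg (fun x => max (x - T) 0) ≤ monSum M (fun x => max (x - T) 0) := by
  classical
  obtain ⟨_, ⟨S⟩⟩ := exists_strings hq hR m
  rw [monSum_eq hR m S hM]
  unfold hodgeSum
  rw [finsum_eq_sum_of_support_subset (s := hfin.toFinset)]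
  · have h1 : ∀ a ∈ hfin.toFinset, max (2 * (a : ℝ) - m - T) 0 * (hdg a : ℝ) ≤
        ∑ p ∈ Finset.univ.filter (fun p : S.P => S.ct p = 2 * a - m),
          max ((S.ct p : ℝ) - T) 0 := by
      intro a _
      by_cases ha : (t : ℤ) < 2 * a - m
      · have h2 := h a ha
        rw [grDim_eq hR m S hM, Nat.card_eq_fintype_card, Fintype.card_subtype] at h2
        have h3 : ∑ p ∈ Finset.univ.filter (fun p : S.P => S.ct p = 2 * a - m),
            max ((S.ct p : ℝ) - T) 0 =
            ∑ p ∈ Finset.univ.filter (fun p : S.P => S.ct p = 2 * a - m),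
              max (2 * (a : ℝ) - m - T) 0 := by
          refine Finset.sum_congr rfl fun p hp => ?_
          rw [(Finset.mem_filter.1 hp).2]
          push_cast
          rfl
        rw [h3, Finset.sum_const, nsmul_eq_mul, mul_comm]
        refine mul_le_mul_of_nonneg_right ?_ (le_max_right _ _)
        exact_mod_cast h2
      · have h2 : max (2 * (a : ℝ) - m - T) 0 = 0 := by
          apply max_eq_right
          have h3 : (2 * (a : ℤ) - m : ℤ) ≤ T := by omega
          have h4 : (2 * (a : ℝ) - m) ≤ T := by exact_mod_cast h3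
          linarith
        rw [h2, zero_mul]
        exact Finset.sum_nonneg fun p _ => le_max_right _ _
    refine (Finset.sum_le_sum h1).trans ?_
    rw [← Finset.sum_biUnion]
    · exact Finset.sum_le_sum_of_subset_of_nonneg (Finset.subset_univ _)
        fun p _ _ => le_max_right _ _
    · intro a _ b _ hab
      rw [Function.onFun, Finset.disjoint_filter]
      intro p _ h2 h3
      apply hab
      omega
  · intro a ha
    rw [Set.Finite.coe_toFinset]
    intro h0
    apply ha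
    simp only
    rw [h0]
    simp

end

section

variable {Ω : Type w} [Field Ω] [CharZero Ω] [IsAlgClosed Ω] {R : Coh.{v, w} Ω}
  {Ω' : Type w'} [Field Ω'] [CharZero Ω'] [IsAlgClosed Ω'] {R' : Coh.{v', w'} Ω'} {q : ℕ}

/-- Weil numbers are determined by their minimal polynomials. -/
lemma weil_of_minpoly {w : ℤ} {α : Ω} {β : Ω'} (h : minpoly ℚ α = minpoly ℚ β)
    (hα : IsWeilNumber q w α) : IsWeilNumber q w β := by
  refine ⟨?_, fun z hz => hα.2 z (by rwa [h])⟩
  by_contra hcon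
  have h2 : ¬ IsIntegral ℚ β := fun h => hcon h.isAlgebraic
  rw [minpoly.eq_zero h2] at h
  exact minpoly.ne_zero hα.1.isIntegral h

/-- The multiplicities are those of the roots of the rational polynomial. -/
lemma mult_embed (hR : R.IsCoh q) {m : ℕ} {P : Polynomial ℚ}
    (hP : charP R m = P.map (algebraMap ℚ Ω)) (σ : AlgebraicClosure ℚ →ₐ[ℚ] Ω)
    (a : AlgebraicClosure ℚ) :
    mult R m (σ a) = (P.map (algebraMap ℚ (AlgebraicClosure ℚ))).rootMultiplicity a := by
  have h1 : (P.map (algebraMap ℚ (AlgebraicClosure ℚ))).map (σ : AlgebraicClosure ℚ →+* Ω) =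
      P.map (algebraMap ℚ Ω) := by
    rw [Polynomial.map_map]
    congr 1
    exact σ.comp_algebraMap
  rw [← rootMultiplicity_charP hR, hP, ← h1]
  exact (Polynomial.eq_rootMultiplicity_map (f := (σ : AlgebraicClosure ℚ →+* Ω))
    σ.toRingHom.injective a).symm

/-- Algebraic numbers come from the algebraic closure of `ℚ`. -/
lemma mem_range_embed (σ : AlgebraicClosure ℚ →ₐ[ℚ] Ω) {α : Ω} (hα : IsAlgebraic ℚ α) :
    α ∈ Set.range σ := by
  have h1 : ((minpoly ℚ α).map (algebraMap ℚ (AlgebraicClosure ℚ))).map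
      (σ : AlgebraicClosure ℚ →+* Ω) = (minpoly ℚ α).map (algebraMap ℚ Ω) := by
    rw [Polynomial.map_map]
    congr 1
    exact σ.comp_algebraMap
  have h0 : (minpoly ℚ α).map (algebraMap ℚ Ω) ≠ 0 :=
    (Polynomial.map_ne_zero_iff (algebraMap ℚ Ω).injective).2 (minpoly.ne_zero hα.isIntegral)
  have h2 : α ∈ ((minpoly ℚ α).map (algebraMap ℚ Ω)).roots := by
    rw [Polynomial.mem_roots h0, Polynomial.IsRoot.def, Polynomial.eval_map_algebraMap,
      minpoly.aeval]
  rw [← h1, (IsAlgClosed.splits ((minpoly ℚ α).map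
    (algebraMap ℚ (AlgebraicClosure ℚ)))).roots_map] at h2
  obtain ⟨a, _, ha⟩ := Multiset.mem_map.1 h2
  exact ⟨a, ha⟩

/-- Sums over the eigenvalues as sums over the algebraic numbers. -/
lemma finsum_embed (hR : R.IsCoh q) {m : ℕ} (σ : AlgebraicClosure ℚ →ₐ[ℚ] Ω) (g : Ω → ℝ) :
    ∑ᶠ α : Ω, g α * (mult R m α : ℝ) =
      ∑ᶠ a : AlgebraicClosure ℚ, g (σ a) * (mult R m (σ a) : ℝ) := by
  have hinj : Function.Injective σ := σ.toRingHom.injective
  rw [← finsum_mem_range (f := fun α => g α * (mult R m α : ℝ)) hinj,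
    ← finsum_mem_univ (f := fun α => g α * (mult R m α : ℝ))]
  apply finsum_mem_inter_support_eq'
  intro α hα
  refine ⟨fun _ => mem_range_embed σ ?_, fun _ => Set.mem_univ _⟩
  by_contra hcon
  apply hα
  rw [mult_eq_zero hR (fun ⟨w, hw⟩ => hcon hw.1)]
  simp

/-- The weights are determined by the characteristic polynomial. -/
theorem weightSum_cmp (hq : 1 < q) (hR : R.IsCoh q) (hR' : R'.IsCoh q) {m : ℕ}
    {P : Polynomial ℚ} (hP : charP R m = P.map (algebraMap ℚ Ω))
    (hP' : charP R' m = P.map (algebraMap ℚ Ω')) (φ : ℝ → ℝ) :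
    weightSum R q m φ = weightSum R' q m φ := by
  have halg : Algebra.IsAlgebraic ℚ (AlgebraicClosure ℚ) := by
    have h0 := AlgebraicClosure.isAlgebraic ℚ
    rwa [Subsingleton.elim (AlgebraicClosure.instAlgebra ℚ : Algebra ℚ (AlgebraicClosure ℚ))
      DivisionRing.toRatAlgebra] at h0
  let σ : AlgebraicClosure ℚ →ₐ[ℚ] Ω := IsAlgClosed.lift
  let σ' : AlgebraicClosure ℚ →ₐ[ℚ] Ω' := IsAlgClosed.lift
  rw [weightSum_finsum hq hR, weightSum_finsum hq hR',
    finsum_embed hR σ (fun α => φ ((Coh.wtf q α : ℝ) - m)),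
    finsum_embed hR' σ' (fun α => φ ((Coh.wtf q α : ℝ) - m))]
  refine finsum_congr fun a => ?_
  have h1 : mult R m (σ a) = mult R' m (σ' a) := by rw [mult_embed hR hP, mult_embed hR' hP']
  by_cases h0 : mult R m (σ a) = 0
  · rw [← h1, h0]
    simp
  · obtain ⟨w, hw⟩ : ∃ w : ℤ, IsWeilNumber q w (σ a) := by
      by_contra hcon
      exact h0 (mult_eq_zero hR hcon)
    have h2 : minpoly ℚ (σ a) = minpoly ℚ (σ' a) := by
      rw [minpoly.algHom_eq σ σ.toRingHom.injective a, minpoly.algHom_eq σ' σ'.toRingHom.injective a]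
    have hw' := weil_of_minpoly h2 hw
    rw [h1, Coh.wtf_eq hq hw, Coh.wtf_eq hq hw']

end

end Pool.Agent.Y163.MQ
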