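import Pool.Agent.Y163.MQ.Str

/-!
# Strings which are centred from `t` on
-/

set_option autoImplicit false

open Module

namespace Pool.Agent.Y163.MQ

open Pool.Agent.Y143 Pool.Agent.Y163.MW Pool.Agent.Y163.MX Pool.Agent.Y614.MW

universe u v

variable {K : Type u} [Field K] {V : Type v} [AddCommGroup V] [Module K V]
  {gr : ℤ → Submodule K V} {N : Module.End K V}

/-- The strings of length at least `t` are centred, the others have weights between `-t` and `t`. -/
def RightFrom (S : Strings gr N) (t : ℕ) : Prop :=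
  ∀ s, (t ≤ S.len s → S.top s = S.len s) ∧
    (S.len s < t → S.top s ≤ t ∧ 2 * (S.len s : ℤ) - S.top s ≤ t)

/-- `N ^ a` is an isomorphism of the weight spaces for all `a > t`. -/
theorem iso_of (hgr : DirectSum.IsInternal gr) (S : Strings gr N) {t : ℕ} (hS : RightFrom S t)
    {a : ℕ} (ha : t < a) : (∀ x ∈ gr a, (N ^ a) x = 0 → x = 0) ∧
      ∀ y ∈ gr (-(a : ℤ)), ∃ x ∈ gr a, (N ^ a) x = y := by
  classical
  constructor
  · intro x hx h0
    apply S.b.repr.injective
    rw [map_zero]
    ext ⟨s, ⟨i, hi⟩⟩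
    rw [Finsupp.zero_apply]
    by_cases hw : wt S ⟨s, ⟨i, hi⟩⟩ = a
    · have h1 := hS s
      unfold wt at hw
      simp only at hw
      have := repr_pow S s i a (by omega) x
      rw [h0, map_zero, Finsupp.zero_apply] at this
      exact this.symm
    · exact repr_eq_zero_of_mem hgr S hx _ hw
  · intro y hy
    set x : V := ∑ p : Σ s : S.ι, Fin (S.len s + 1),
      (if h : (p.2 : ℕ) + a < S.len p.1 + 1 then S.b.repr y ⟨p.1, ⟨p.2 + a, h⟩⟩ else 0) • S.b p
      with hx
    have hr : ∀ (s : S.ι) (i : ℕ) (hi : i < S.len s + 1), S.b.repr x ⟨s, ⟨i, hi⟩⟩ =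
        if h : i + a < S.len s + 1 then S.b.repr y ⟨s, ⟨i + a, h⟩⟩ else 0 := by
      intro s i hi
      rw [hx]
      have := S.b.repr_sum_self (fun p => if h : (p.2 : ℕ) + a < S.len p.1 + 1 then
        S.b.repr y ⟨p.1, ⟨p.2 + a, h⟩⟩ else 0)
      exact congrFun this ⟨s, ⟨i, hi⟩⟩
    refine ⟨x, ?_, ?_⟩
    · apply mem_of_repr S
      rintro ⟨s, ⟨i, hi⟩⟩ hw
      rw [hr]
      split_ifs with h
      · apply repr_eq_zero_of_mem hgr S hy
        unfold wt at hw ⊢
        simp only at hw ⊢
        push_cast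
        omega
      · rfl
    · apply S.b.repr.injective
      ext ⟨s, ⟨j, hj⟩⟩
      rcases lt_or_ge j a with hja | hja
      · rw [repr_pow_lt S s j a hj hja]
        symm
        apply repr_eq_zero_of_mem hgr S hy
        intro hw
        have h1 := hS s
        unfold wt at hw
        simp only at hw
        omega
      · obtain ⟨i, rfl⟩ := Nat.exists_eq_add_of_le' hja
        rw [repr_pow S s i a hj, hr, dif_pos hj]

/-- An eigenvalue on a quotient is an eigenvalue. -/
lemma exists_eigen_of [Module.Finite K V] {F : Module.End K V} {B W : Submodule K V} (hBW : B ≤ W)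
    (FB : ∀ x ∈ B, F x ∈ B) {α : K} {y : V} (hy : y ∈ W) (hyB : y ∉ B) (h : F y - α • y ∈ B) :
    ∃ x ∈ W, x ≠ 0 ∧ F x = α • x := by
  by_contra hno
  push Not at hno
  have GB : ∀ x ∈ B, (F - α • LinearMap.id : Module.End K V) x ∈ B := fun x hx =>
    sub_mem (FB x hx) (B.smul_mem α hx)
  let g : Module.End K B := (F - α • LinearMap.id : Module.End K V).restrict GB
  have hg : Function.Injective g := by
    rw [← LinearMap.ker_eq_bot, LinearMap.ker_eq_bot']
    intro x hx
    by_contra hx0
    have h1 : F (x : V) - α • (x : V) = 0 := congrArg Subtype.val hx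
    exact hno x (hBW x.2) (fun h => hx0 (Subtype.ext h)) (sub_eq_zero.1 h1)
  obtain ⟨z, hz⟩ := (LinearMap.injective_iff_surjective.1 hg) ⟨_, h⟩
  have h1 : F (z : V) - α • (z : V) = F y - α • (y : V) := congrArg Subtype.val hz
  have h2 : (y : V) - z = 0 := by
    by_contra hne
    refine hno _ (sub_mem hy (hBW z.2)) hne ?_
    rw [map_sub, smul_sub]
    have h3 : F (y : V) - F (z : V) - (α • (y : V) - α • (z : V)) =
        (F y - α • (y : V)) - (F (z : V) - α • (z : V)) := by abel
    rw [← sub_eq_zero, h3, h1, sub_self]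
  exact hyB ((sub_eq_zero.1 h2) ▸ z.2)

/-- The eigenvalues on a graded piece of the monodromy filtration. -/
theorem pure_of [CharZero K] [Module.Finite K V] (S : Strings gr N)
    {F : Module.End K V} (hF : ∀ c, ∀ x ∈ gr c, F x ∈ gr c) {M : ℤ → Submodule K V}
    (hM : IsMonodromyFiltrationOn ⊤ N M) (hFM : ∀ s x, x ∈ M s → F x ∈ M s) {k : ℤ}
    (hk : ∀ p : S.P, S.ct p = k → S.wt p = k) {α : K} {x : V} (hx : x ∈ M k)
    (hx1 : x ∉ M (k - 1)) (hx2 : F x - α • x ∈ M (k - 1)) :
    ∃ y ∈ gr k, y ≠ 0 ∧ F y = α • y := by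
  classical
  obtain ⟨e, h, hs⟩ := Pool.Agent.Y664.MW.t_B2 K V gr N S
  have h1 := Pool.Agent.Y68.MW.stD Pool.Agent.Y141.MW.stL K V N S.P S.b S.ct e h hs M hM
  set y : V := ∑ p ∈ Finset.univ.filter (fun p : S.P => S.ct p = k), S.b.repr x p • S.b p with hy
  set z : V := ∑ p ∈ Finset.univ.filter (fun p : S.P => ¬ S.ct p = k), S.b.repr x p • S.b p with hz
  have hsum : y + z = x := by
    rw [hy, hz, Finset.sum_filter_add_sum_filter_not]
    exact S.b.sum_repr x
  have hz1 : z ∈ M (k - 1) := by
    refine Submodule.sum_mem _ fun p hp => ?_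
    have hp' : S.ct p ≠ k := (Finset.mem_filter.1 hp).2
    rcases lt_or_gt_of_ne hp' with hlt | hgt
    · refine Submodule.smul_mem _ _ ?_
      rw [h1 (k - 1)]
      exact Submodule.subset_span ⟨p, by simp only [Set.mem_setOf_eq]; omega, rfl⟩
    · have h2 : S.b.repr x p = 0 := by
        rw [h1 k, Basis.mem_span_image] at hx
        by_contra h0
        have h3 : S.ct p ≤ k := hx (Finsupp.mem_support_iff.2 h0)
        omega
      rw [h2, zero_smul]
      exact zero_mem _
  have hy1 : y ∈ gr k := by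
    refine Submodule.sum_mem _ fun p hp => Submodule.smul_mem _ _ ?_
    have hp' : S.ct p = k := (Finset.mem_filter.1 hp).2
    have h2 := S.mem' p
    rwa [hk p hp'] at h2
  have hy2 : y ∉ M (k - 1) := by
    intro h2
    apply hx1
    rw [← hsum]
    exact add_mem h2 hz1
  have hy3 : F y - α • y ∈ M (k - 1) ⊓ gr k := by
    refine ⟨?_, sub_mem (hF k y hy1) (Submodule.smul_mem _ _ hy1)⟩
    have h2 : F y - α • y = (F x - α • x) - (F z - α • z) := by
      rw [← hsum, map_add, smul_add]
      abel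
    rw [h2]
    exact sub_mem hx2 (sub_mem (hFM _ z hz1) (Submodule.smul_mem _ _ hz1))
  exact exists_eigen_of inf_le_right (fun v hv => ⟨hFM _ v hv.1, hF k v hv.2⟩) hy1
    (fun h2 => hy2 h2.1) hy3

/-- The dimensions of the graded pieces of the monodromy filtration. -/
theorem dim_gr [CharZero K] (S : Strings gr N) {M : ℤ → Submodule K V}
    (hM : IsMonodromyFiltrationOn ⊤ N M) (k : ℤ) :
    (finrank K (M k) : ℤ) - finrank K (M (k - 1)) = Nat.card {p : S.P // S.ct p = k} := by
  classical
  obtain ⟨e, h, hs⟩ := Pool.Agent.Y664.MW.t_B2 K V gr N S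
  have h1 := Pool.Agent.Y68.MW.stD Pool.Agent.Y141.MW.stL K V N S.P S.b S.ct e h hs M hM
  have h2 : ∀ r, finrank K (M r) = Nat.card {p : S.P // S.ct p ≤ r} := by
    intro r
    rw [h1 r, finrank_span_image]
    rfl
  rw [h2, h2, Nat.card_eq_fintype_card, Nat.card_eq_fintype_card, Nat.card_eq_fintype_card,
    Fintype.card_subtype, Fintype.card_subtype, Fintype.card_subtype]
  have h3 : (Finset.univ.filter (fun p : S.P => S.ct p ≤ k)).card =
      (Finset.univ.filter (fun p : S.P => S.ct p ≤ k - 1)).card +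
        (Finset.univ.filter (fun p : S.P => S.ct p = k)).card := by
    rw [← Finset.card_union_of_disjoint]
    · congr 1
      ext p
      simp only [Finset.mem_filter, Finset.mem_univ, true_and, Finset.mem_union]
      omega
    · rw [Finset.disjoint_filter]
      intro p _ h5 h6
      omega
  rw [h3]
  push_cast
  ring

end Pool.Agent.Y163.MQ
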