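import Pool.Agent.Y163.MQ.Kar
import Pool.Agent.Y163.MW.Comb
import Pool.Agent.Y163.MX.Fin

/-!
# Strings and convex functions
-/

set_option autoImplicit false

open Module

namespace Pool.Agent.Y163.MQ

open Pool.Agent.Y163.MW Pool.Agent.Y163.MX

universe u v

variable {K : Type u} [Field K] {V : Type v} [AddCommGroup V] [Module K V]
  {gr : ℤ → Submodule K V} {N : Module.End K V}

/-- The reversal of the strings. -/
def rev (S : Strings gr N) (p : S.P) : S.P := ⟨p.1, ⟨S.len p.1 - p.2, by omega⟩⟩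

lemma rev_rev (S : Strings gr N) (p : S.P) : rev S (rev S p) = p := by
  obtain ⟨s, i⟩ := p
  have := i.2
  unfold rev
  simp only
  congr 1
  apply Fin.ext
  simp only
  omega

/-- The reversal as a permutation. -/
def revE (S : Strings gr N) : S.P ≃ S.P := ⟨rev S, rev S, rev_rev S, rev_rev S⟩

/-- The shift of a string. -/
def sh (S : Strings gr N) (s : S.ι) : ℤ := S.top s - S.len s

lemma ct_rev (S : Strings gr N) (p : S.P) : S.ct (rev S p) = -S.ct p := by
  obtain ⟨s, i⟩ := p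
  have := i.2
  unfold rev Strings.ct
  simp only
  omega

lemma wt_eq (S : Strings gr N) (p : S.P) : S.wt p = S.ct p + sh S p.1 := by
  unfold Strings.wt Strings.ct sh
  omega

/-- The sum over the weights, rewritten. -/
lemma two_sum (S : Strings gr N)
    (hsym : ∀ r : ℤ, Nat.card {p // S.wt p = r} = Nat.card {p // S.wt p = -r}) (φ : ℝ → ℝ) :
    2 * ∑ p : S.P, φ (S.wt p) =
      ∑ p : S.P, (φ (S.ct p + sh S p.1) + φ (S.ct p - sh S p.1)) := by
  classical
  have h1 : ∑ p : S.P, φ (S.wt p) = ∑ p : S.P, φ (-(S.wt p : ℝ)) := by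
    rw [← finsum_fib S.wt (fun c : ℤ => φ c), ← finsum_fib S.wt (fun c : ℤ => φ (-(c : ℝ)))]
    rw [← finsum_comp_equiv (Equiv.neg ℤ)]
    refine finsum_congr fun c => ?_
    rw [Equiv.neg_apply, ← hsym c]
    push_cast
    rfl
  have h2 : ∑ p : S.P, φ (-(S.wt p : ℝ)) = ∑ p : S.P, φ (S.ct p - sh S p.1) := by
    rw [← Equiv.sum_comp (revE S) (fun p => φ (-(S.wt p : ℝ)))]
    refine Finset.sum_congr rfl fun p _ => ?_
    congr 1
    have h3 : S.wt (revE S p) = -S.ct p + sh S p.1 := by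
      rw [wt_eq]
      show S.ct (rev S p) + sh S (rev S p).1 = _
      rw [ct_rev]
      rfl
    rw [h3]
    push_cast
    ring
  have h4 : ∑ p : S.P, φ (S.wt p) = ∑ p : S.P, φ (S.ct p + sh S p.1) := by
    refine Finset.sum_congr rfl fun p _ => ?_
    rw [wt_eq]
    push_cast
    rfl
  rw [Finset.sum_add_distrib, ← h4, ← h2, ← h1, two_mul]

/-- The monodromy weights are majorized by the weights. -/
theorem sum_ct_le (S : Strings gr N)
    (hsym : ∀ r : ℤ, Nat.card {p // S.wt p = r} = Nat.card {p // S.wt p = -r}) {φ : ℝ → ℝ}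
    (hφ : ConvexOn ℝ Set.univ φ) : ∑ p : S.P, φ (S.ct p) ≤ ∑ p : S.P, φ (S.wt p) := by
  have h1 := two_sum S hsym φ
  have h2 : ∑ p : S.P, 2 * φ (S.ct p) ≤
      ∑ p : S.P, (φ (S.ct p + sh S p.1) + φ (S.ct p - sh S p.1)) := by
    refine Finset.sum_le_sum fun p _ => ?_
    have := convex_mid hφ ((S.ct p : ℝ) + sh S p.1) ((S.ct p : ℝ) - sh S p.1)
    rwa [show ((S.ct p : ℝ) + sh S p.1 + ((S.ct p : ℝ) - sh S p.1)) / 2 = S.ct p by ring] at this
  rw [← Finset.mul_sum] at h2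
  linarith

/-- The case of equality at `T`. -/
lemma eq_at (S : Strings gr N)
    (hsym : ∀ r : ℤ, Nat.card {p // S.wt p = r} = Nat.card {p // S.wt p = -r}) (T : ℕ)
    (h : ∑ p : S.P, max ((S.ct p : ℝ) - T) 0 = ∑ p : S.P, max ((S.wt p : ℝ) - T) 0) (p : S.P) :
    max (S.ct p + sh S p.1 - T) 0 + max (S.ct p - sh S p.1 - T) 0 = 2 * max (S.ct p - T) 0 := by
  have h1 := two_sum S hsym (fun x => max (x - T) 0)
  rw [← h, Finset.mul_sum] at h1
  have h2 : ∀ p ∈ (Finset.univ : Finset S.P), 2 * max ((S.ct p : ℝ) - T) 0 ≤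
      max ((S.ct p : ℝ) + sh S p.1 - T) 0 + max ((S.ct p : ℝ) - sh S p.1 - T) 0 := by
    intro p _
    have := convex_mid (convex_pos T) ((S.ct p : ℝ) + sh S p.1) ((S.ct p : ℝ) - sh S p.1)
    rwa [show ((S.ct p : ℝ) + sh S p.1 + ((S.ct p : ℝ) - sh S p.1)) / 2 = S.ct p by ring] at this
  have h3 := (Finset.sum_eq_sum_iff_of_le h2).1 h1 p (Finset.mem_univ p)
  exact_mod_cast h3.symm

/-- The case of equality from `t` on. -/
theorem right_strings (S : Strings gr N)
    (hsym : ∀ r : ℤ, Nat.card {p // S.wt p = r} = Nat.card {p // S.wt p = -r}) (t : ℕ)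
    (h : ∀ T : ℕ, t ≤ T →
      ∑ p : S.P, max ((S.ct p : ℝ) - T) 0 = ∑ p : S.P, max ((S.wt p : ℝ) - T) 0) (s : S.ι) :
    (t ≤ S.len s → S.top s = S.len s) ∧
      (S.len s < t → S.top s ≤ t ∧ 2 * (S.len s : ℤ) - S.top s ≤ t) := by
  constructor
  · intro hs
    have h1 := eq_at S hsym (S.len s) (h _ hs) ⟨s, 0⟩
    unfold sh Strings.ct at h1
    simp only [Fin.val_zero] at h1
    omega
  · intro hs
    have h1 := eq_at S hsym t (h _ le_rfl) ⟨s, 0⟩
    unfold sh Strings.ct at h1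
    simp only [Fin.val_zero] at h1
    omega

end Pool.Agent.Y163.MQ
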